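import Pool.Agent.Helper259_SB.Inv

set_option autoImplicit false

/-!
The left-hand side is the statement asked about in Q1.  The right-hand side says that the
property survives when the product of two commuting generators is added to the generating set.
-/

open Filter Topology

namespace Pool.Agent.Results.MP_799c44_al.CommutingGenerator

open Pool.Agent.Helper259_SB (ball Subexp RatioZero)

theorem result :
    (∀ (G : Type) [Group G] (S : Set G), S.Finite → Subgroup.closure S = ⊤ →
      Subexp S → RatioZero S) ↔
    (∀ (G : Type) [Group G] (S : Set G), S.Finite → Subgroup.closure S = ⊤ →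
      Subexp S → RatioZero S → ∀ x y : G, (x ∈ S ∨ x⁻¹ ∈ S) → (y ∈ S ∨ y⁻¹ ∈ S) →
        x * y = y * x → RatioZero (insert (x * y) S)) :=
  Pool.Agent.Helper259_SB.inv_main

end Pool.Agent.Results.MP_799c44_al.CommutingGenerator
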