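import Pool.Agent.Helper259_SB.Main

set_option autoImplicit false

/-!
`ball S n` (in `Pool.Agent.Helper259_SB.Def`) is the ball of radius n in the word metric of S.
The statement: for every subexponential function f there is one finitely generated group H of
intermediate growth such that K x H satisfies the conclusion of the question, for the union of
the generating sets, whenever K is a finitely generated group whose growth is dominated by f.
-/

open Filter Topology

namespace Pool.Agent.Results.MP_799c44_al.DominatingFactor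

open Pool.Agent.Helper259_SB (ball)

theorem result (f : ℕ → ℕ)
    (hf : Tendsto (fun n : ℕ => (f n : ℝ) ^ ((1 : ℝ) / (n : ℝ))) atTop (𝓝 1)) :
    ∃ (H : Type) (_ : Group H) (T : Set H), T.Finite ∧ Subgroup.closure T = ⊤ ∧
      (∀ d : ℕ, ∀ᶠ n : ℕ in atTop, n ^ d ≤ (ball T n).ncard) ∧
      (¬ ∃ C : ℕ, ∀ n : ℕ, 1 ≤ n → (ball T n).ncard ≤ C * f (C * n)) ∧
      ∀ (K : Type*) [Group K] (S : Set K), S.Finite → Subgroup.closure S = ⊤ →
        (∃ C : ℕ, ∀ n : ℕ, 1 ≤ n → (ball S n).ncard ≤ C * f (C * n)) →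
        Subgroup.closure (S ×ˢ {1} ∪ {1} ×ˢ T : Set (K × H)) = ⊤ ∧
        Tendsto (fun n : ℕ => ((ball (S ×ˢ {1} ∪ {1} ×ˢ T : Set (K × H)) n).ncard : ℝ) ^
          ((1 : ℝ) / (n : ℝ))) atTop (𝓝 1) ∧
        Tendsto (fun n : ℕ =>
          ((ball (S ×ˢ {1} ∪ {1} ×ˢ T : Set (K × H)) (n + 1) \
            ball (S ×ˢ {1} ∪ {1} ×ˢ T : Set (K × H)) n).ncard : ℝ) /
          ((ball (S ×ˢ {1} ∪ {1} ×ˢ T : Set (K × H)) n).ncard : ℝ)) atTop (𝓝 0) :=
  Pool.Agent.Helper259_SB.main f hf

end Pool.Agent.Results.MP_799c44_al.DominatingFactor
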