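import Pool.Agent.Helper259_SB.Zd
import Pool.Agent.Helper259_SB.DefP

set_option autoImplicit false

/-!
Products with free abelian groups of large rank, for the standard generating sets: the upper limit
of the sphere-to-ball ratio tends to zero with the rank.
-/

open Filter Topology

namespace Pool.Agent.Results.MP_799c44_al.FreeAbelianFactor

open Pool.Agent.Helper259_SB (ball Subexp)

theorem result {K : Type*} [Group K] (S : Set K) (hS : S.Finite)
    (hgen : Subgroup.closure S = ⊤) (hsub : Subexp S) (ε : ℝ) (hε : 0 < ε) :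
    ∃ d₀ : ℕ, ∀ d : ℕ, d₀ ≤ d →
      ∀ U : Set (K × Multiplicative (Fin d → ℤ)),
        U = S ×ˢ {1} ∪ {1} ×ˢ Set.range (fun i => Multiplicative.ofAdd (Pi.single i (1 : ℤ))) →
        ∀ᶠ n : ℕ in atTop,
          ((ball U (n + 1) \ ball U n).ncard : ℝ) ≤ ε * ((ball U n).ncard : ℝ) := by
  obtain ⟨d₀, h⟩ := Pool.Agent.Helper259_SB.zd_main S hS hgen hsub ε hε
  refine ⟨d₀, fun d hd U hU => ?_⟩
  have := h d hd
  rw [hU]
  exact this

end Pool.Agent.Results.MP_799c44_al.FreeAbelianFactor
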