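import Pool.Agent.Helper259_SB.Shell

set_option autoImplicit false

/-!
The ratio limit for groups of very small superpolynomial growth, for every finite generating set
and without using the structure of the group.
-/

open Filter Topology

namespace Pool.Agent.Results.MP_799c44_al.SmallGrowth

open Pool.Agent.Helper259_SB (ball)

theorem result {G : Type*} [Group G] (S : Set G) (hS : S.Finite)
    (hgen : Subgroup.closure S = ⊤) (c : ℝ) (hc : c * Real.log 3 < 1)
    (hgrowth : ∃ᶠ n : ℕ in atTop,
      ((ball S n).ncard : ℝ) ≤ (n : ℝ) ^ (c * Real.log (Real.log n))) :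
    Tendsto (fun n : ℕ => ((ball S (n + 1) \ ball S n).ncard : ℝ) / ((ball S n).ncard : ℝ))
      atTop (𝓝 0) :=
  Pool.Agent.Helper259_SB.small_growth hS hgen c hc hgrowth

end Pool.Agent.Results.MP_799c44_al.SmallGrowth
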